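import Pool.Agent.AT8.Stmts4
import Pool.Agent.Helper32_AT2.PWU

/-!
# AT8, row TC8: the types are closed under quotients
-/

open scoped BigOperators

set_option linter.unusedSectionVars false

noncomputable section

namespace Pool.Agent.PP.T8.H25

open Pool.Agent.Helper51_AWC Pool.Agent.Helper79_WRA Pool.Agent.PP Pool.Agent.PP.KF
open Pool.Agent.PP.K9 Pool.Agent.PP.K9.H97 Pool.Agent.PP.H75 Pool.Agent.PP.T3 Pool.Agent.PP.T2

attribute [local instance] Ideal.Quotient.field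

section ind

variable {G A : Type} [Group G] [Group A] {V : Subgroup G} {V' : Subgroup A} (π : V →* V')

/-- `t` induces `t'` -/
def Ind (t : G) (t' : A) : Prop := ∀ v w : V, (w : G) = t * v * t⁻¹ → (π w : A) = t' * π v * t'⁻¹

variable {π}

theorem Ind.mul {t s : G} {t' s' : A} (ht : Ind π t t') (hs : Ind π s s')
    (hn : s ∈ Subgroup.normalizer (V : Set G)) : Ind π (t * s) (t' * s') := by
  intro v w hw
  have h1 : s * v * s⁻¹ ∈ V := (Subgroup.mem_normalizer_iff.1 hn v).1 v.2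
  have h2 := hs v ⟨s * v * s⁻¹, h1⟩ rfl
  have h3 := ht ⟨s * v * s⁻¹, h1⟩ w (by
    rw [hw]
    change t * s * v * (t * s)⁻¹ = t * (s * v * s⁻¹) * t⁻¹
    group)
  rw [h3, h2]
  group

theorem Ind.inv {t : G} {t' : A} (ht : Ind π t t') : Ind π t⁻¹ t'⁻¹ := by
  intro v w hw
  have h1 := ht w v (by rw [hw]; group)
  rw [h1]
  group

theorem Ind.cent {t : G} {t' : A} (ht : Ind π t t') (hπ : Function.Surjective π)
    (hc : t ∈ Subgroup.centralizer (V : Set G)) : t' ∈ Subgroup.centralizer (V' : Set A) := by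
  rw [Subgroup.mem_centralizer_iff]
  intro v' hv'
  obtain ⟨v, hv⟩ := hπ ⟨v', hv'⟩
  have h1 := ht v v (by
    rw [← Subgroup.mem_centralizer_iff.1 hc v v.2, mul_inv_cancel_right])
  rw [hv] at h1
  change v' = t' * v' * t'⁻¹ at h1
  conv_lhs => rw [h1]
  group

/-- the norm element -/
def nrm (φ : V →* V) (v : V) : ℕ → V
  | 0 => 1
  | i + 1 => nrm φ v i * φ^[i] v

theorem nrm_fix (hab : ∀ a b : V, a * b = b * a) (φ : V →* V) (v : V) (i : ℕ) :
    φ (nrm φ v i) * v = nrm φ v i * φ^[i] v := by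
  induction i with
  | zero => rw [nrm, map_one]; rfl
  | succ i ih =>
    rw [nrm, map_mul, ← Function.iterate_succ_apply' (⇑φ) i v, mul_assoc, hab _ v, ← mul_assoc, ih]

theorem nrm_map {t' : A} (φ : V →* V) (hφ : ∀ x, (π (φ x) : A) = t' * π x * t'⁻¹) (v : V)
    (hc : t' * (π v : A) = π v * t') (i : ℕ) : π (nrm φ v i) = π v ^ i := by
  have h1 : ∀ j, π (φ^[j] v) = π v := by
    intro j
    induction j with
    | zero => rfl
    | succ j ih =>
      rw [Function.iterate_succ_apply']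
      apply Subtype.ext
      rw [hφ, ih, hc, mul_inv_cancel_right]
  induction i with
  | zero => rw [nrm, map_one, pow_zero]
  | succ i ih => rw [nrm, map_mul, ih, h1, pow_succ]

end ind

/-- the index of the powers of a quotient -/
theorem card_quo {G A : Type} [Group G] [Finite G] [Group A] [Finite A] {V : Subgroup G}
    {V' : Subgroup A} (hab : ∀ a ∈ V, ∀ b ∈ V, a * b = b * a)
    (hab' : ∀ a ∈ V', ∀ b ∈ V', a * b = b * a) (π : V →* V') (hπ : Function.Surjective π)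
    (n C : ℕ) (h : Nat.card V ≤ C * Nat.card (Uw n V)) :
    Nat.card V' ≤ C * Nat.card (Uw n V') := by
  obtain ⟨p1, p2, -⟩ := T2.H32.pwu G n V hab
  obtain ⟨q1, q2, -⟩ := T2.H32.pwu A n V' hab'
  obtain ⟨W, hW⟩ : ∃ W : Subgroup V, W = (Uw n V).subgroupOf V := ⟨_, rfl⟩
  have h1 : Nat.card W = Nat.card (Uw n V) := by
    rw [hW]
    exact Nat.card_congr (Subgroup.subgroupOfEquivOfLe p2).toEquiv
  have h2 : Nat.card ((Uw n V').subgroupOf V') = Nat.card (Uw n V') :=
    Nat.card_congr (Subgroup.subgroupOfEquivOfLe q2).toEquiv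
  have h3 : W.map π ≤ (Uw n V').subgroupOf V' := by
    rintro _ ⟨w, hw, rfl⟩
    rw [hW] at hw
    obtain ⟨v, hv, hvw⟩ := (p1 _).1 (Subgroup.mem_subgroupOf.1 hw)
    rw [Subgroup.mem_subgroupOf, q1]
    refine ⟨π ⟨v, hv⟩, (π ⟨v, hv⟩).2, ?_⟩
    have h4 : w = (⟨v, hv⟩ : V) ^ n := Subtype.ext hvw
    rw [h4, map_pow]
    rfl
  have h4 : Nat.card (W.map π) ≤ Nat.card (Uw n V') := by
    rw [← h2]
    exact Subgroup.card_le_of_le h3
  have h5 : (W.map π).index ≤ W.index :=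
    Nat.le_of_dvd (Nat.pos_of_ne_zero Subgroup.index_ne_zero_of_finite) (W.index_map_dvd hπ)
  have h6 : W.index ≤ C := by
    have h7 := W.index_mul_card
    rw [← h7, ← h1] at h
    exact Nat.le_of_mul_le_mul_right h Nat.card_pos
  calc Nat.card V' = (W.map π).index * Nat.card (W.map π) := ((W.map π).index_mul_card).symm
    _ ≤ C * Nat.card (Uw n V') := Nat.mul_le_mul (h5.trans h6) h4

section fq

variable {F F' G A : Type} [Field F] [Field F'] [Group G] [Finite G] [Group A] [Finite A]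
  {V : Subgroup G} {γ : G → F} {V' : Subgroup A} {γ' : A → F'}

theorem cent_normal (V : Subgroup G) (T : Subgroup G)
    (hT : T ≤ Subgroup.normalizer (V : Set G)) :
    ((Subgroup.centralizer (V : Set G)).subgroupOf T).Normal := by
  constructor
  intro c hc t
  rw [Subgroup.mem_subgroupOf, Subgroup.mem_centralizer_iff] at hc ⊢
  intro v hv
  have h1 : (t : G)⁻¹ * v * t ∈ V :=
    (Subgroup.mem_normalizer_iff''.1 (hT t.2) v).1 hv
  have h2 := hc _ h1
  change v * ((t : G) * c * (t : G)⁻¹) = (t : G) * c * (t : G)⁻¹ * v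
  calc v * ((t : G) * c * (t : G)⁻¹) = t * ((t : G)⁻¹ * v * t * c) * (t : G)⁻¹ := by group
    _ = t * (c * ((t : G)⁻¹ * v * t)) * (t : G)⁻¹ := by rw [h2]
    _ = (t : G) * c * (t : G)⁻¹ * v := by group

theorem pow_ix {t : G} (ht : t ∈ Tg V γ) : t ^ ix V γ ∈ Subgroup.centralizer (V : Set G) := by
  have := cent_normal V (Tg V γ) inf_le_left
  have h1 := Subgroup.pow_index_mem ((Subgroup.centralizer (V : Set G)).subgroupOf (Tg V γ))
    (⟨t, ht⟩ : Tg V γ)
  exact Subgroup.mem_subgroupOf.1 h1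

/-- the index of a quotient -/
theorem ix_le (h : Fq V γ V' γ') : ix V' γ' ≤ ix V γ := by
  obtain ⟨π, hπ, hq⟩ := h
  have hch : ∀ t' : Tg V' γ', ∃ t : Tg V γ, Ind π (t : G) (t' : A) := fun t' => by
    obtain ⟨t, ht, h1⟩ := hq t' t'.2
    exact ⟨⟨t, ht⟩, h1⟩
  choose F hF using hch
  unfold ix Subgroup.relIndex Subgroup.index
  refine Nat.card_le_card_of_injective
    (fun c : Tg V' γ' ⧸ (Subgroup.centralizer (V' : Set A)).subgroupOf (Tg V' γ') =>
      (QuotientGroup.mk (F c.out) :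
        Tg V γ ⧸ (Subgroup.centralizer (V : Set G)).subgroupOf (Tg V γ))) ?_
  intro c d hcd
  have h1 := QuotientGroup.eq.1 hcd
  rw [Subgroup.mem_subgroupOf] at h1
  have h2 := ((hF c.out).inv.mul (hF d.out) (F d.out).2.1).cent hπ h1
  rw [← c.out_eq', ← d.out_eq']
  exact QuotientGroup.eq.2 (Subgroup.mem_subgroupOf.2 h2)

theorem fr_quo {ℓ : ℕ} [Fact ℓ.Prime] (hab : ∀ a ∈ V, ∀ b ∈ V, a * b = b * a)
    (hp' : IsPGroup ℓ V') (hix : ¬ ℓ ∣ ix V γ) (h : Fq V γ V' γ') (hfr : Fr V γ) : Fr V' γ' := by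
  obtain ⟨π, hπ, hq⟩ := h
  intro t' ht' v' hv' hv1 hc
  obtain ⟨t, ht, hi⟩ := hq t' ht'
  change Ind π t t' at hi
  obtain ⟨v, hv⟩ := hπ ⟨v', hv'⟩
  have hN : ∀ x : V, t * x * t⁻¹ ∈ V := fun x => (Subgroup.mem_normalizer_iff.1 ht.1 x).1 x.2
  have habV : ∀ a b : V, a * b = b * a := fun a b => Subtype.ext (hab _ a.2 _ b.2)
  obtain ⟨φ, hφ⟩ : ∃ φ : V →* V, ∀ x : V, (φ x : G) = t * x * t⁻¹ :=
    ⟨{ toFun := fun x => ⟨t * x * t⁻¹, hN x⟩
       map_one' := Subtype.ext (by change t * 1 * t⁻¹ = 1; group)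
       map_mul' := fun x y => Subtype.ext (by
        change t * (x * y) * t⁻¹ = t * x * t⁻¹ * (t * y * t⁻¹); group) }, fun x => rfl⟩
  have hit : ∀ (j : ℕ) (x : V), ((φ^[j] x : V) : G) = t ^ j * x * (t ^ j)⁻¹ := by
    intro j
    induction j with
    | zero => intro x; rw [pow_zero]; change (x : G) = 1 * x * 1⁻¹; group
    | succ j ih =>
      intro x
      rw [Function.iterate_succ_apply', hφ, ih, pow_succ']
      group
  have hm : φ^[ix V γ] v = v := by
    apply Subtype.ext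
    rw [hit, ← Subgroup.mem_centralizer_iff.1 (pow_ix ht) v v.2, mul_inv_cancel_right]
  have h1 := nrm_fix habV φ v (ix V γ)
  rw [hm] at h1
  have h2 : φ (nrm φ v (ix V γ)) = nrm φ v (ix V γ) := mul_right_cancel h1
  have h3 : π (nrm φ v (ix V γ)) = π v ^ ix V γ :=
    nrm_map (t' := t') φ (fun x => hi x (φ x) (hφ x)) v (by rw [hv]; exact hc) _
  have h4 : π v ^ ix V γ ≠ 1 := by
    intro h5
    have hcop : ℓ.Coprime (ix V γ) := (Nat.Prime.coprime_iff_not_dvd Fact.out).2 hix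
    have h6 : (hp'.powEquiv hcop) (π v) = (hp'.powEquiv hcop) 1 := by
      rw [IsPGroup.powEquiv_apply, IsPGroup.powEquiv_apply, h5, one_pow]
    have h7 := (hp'.powEquiv hcop).injective h6
    rw [hv] at h7
    exact hv1 (congrArg Subtype.val h7)
  have h5 : ((nrm φ v (ix V γ) : V) : G) ≠ 1 := by
    intro h6
    have h7 : nrm φ v (ix V γ) = 1 := Subtype.ext h6
    rw [h7, map_one] at h3
    exact h4 h3.symm
  have h6 := hfr t ht _ (nrm φ v (ix V γ)).2 h5 (by
    have h7 := hφ (nrm φ v (ix V γ))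
    rw [h2] at h7
    conv_rhs => rw [h7]
    group)
  exact hi.cent hπ h6

theorem ei_quo {ℓ : ℕ} [Fact ℓ.Prime] (hab : ∀ a ∈ V, ∀ b ∈ V, a * b = b * a)
    (hp' : IsPGroup ℓ V') (hix : ¬ ℓ ∣ ix V γ) (h : Fq V γ V' γ') (he : Ei ℓ V γ) :
    Ei ℓ V' γ' := by
  rcases he with he | he | he
  · left
    obtain ⟨π, hπ, hq⟩ := h
    intro s' hs' t' ht'
    obtain ⟨s, hs, his⟩ := hq s' hs'
    obtain ⟨t, ht, hit⟩ := hq t' ht'
    change Ind π s s' at his
    change Ind π t t' at hit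
    have hsi := (Tg V γ).inv_mem hs
    have hti := (Tg V γ).inv_mem ht
    exact (((his.mul hit ht.1).mul his.inv hsi.1).mul hit.inv hti.1).cent hπ (he s hs t ht)
  · exact Or.inr (Or.inl (lt_of_le_of_lt (ix_le h) he))
  · exact Or.inr (Or.inr (fr_quo hab hp' hix h he))

end fq

theorem tc8 : Tc8Stmt := by
  intro ℓ _ F _ hF G A _ _ _ _ e V γ f V' γ' hL hL' hix a hty hexp hfq
  have hab := hL.ab
  have hab' := hL'.ab
  have hp' : IsPGroup ℓ V' := hL'.tp.pg
  obtain ⟨π, hπ, -⟩ := id hfq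
  rcases hty with ⟨k, hk⟩ | hb | hf
  · refine Or.inl ⟨k, hk.pos, hk.le, hexp, ?_, ?_, ei_quo hab hp' hix hfq hk.ei⟩
    · rcases hk.hk with h | h | h
      · exact Or.inl (card_quo hab hab' π hπ _ _ h)
      · exact Or.inr (Or.inl (lt_of_le_of_lt (ix_le hfq) h))
      · exact Or.inr (Or.inr ⟨lt_of_le_of_lt (ix_le hfq) h.1, fr_quo hab hp' hix hfq h.2⟩)
    · exact card_quo hab hab' π hπ _ _ hk.sz
  · refine Or.inr (Or.inl ⟨hb.le, hexp, ?_⟩)
    obtain ⟨x, y, hxy⟩ := hb.gen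
    have hx : x ∈ V := by rw [hxy]; exact Subgroup.subset_closure (Or.inl rfl)
    have hy : y ∈ V := by rw [hxy]; exact Subgroup.subset_closure (Or.inr rfl)
    refine ⟨π ⟨x, hx⟩, π ⟨y, hy⟩, ?_⟩
    have h1 : Subgroup.closure {(⟨x, hx⟩ : V), ⟨y, hy⟩} = ⊤ := by
      apply Subgroup.map_injective V.subtype_injective
      rw [MonoidHom.map_closure, Set.image_pair]
      change Subgroup.closure {x, y} = Subgroup.map V.subtype ⊤
      rw [← hxy, ← MonoidHom.range_eq_map, Subgroup.range_subtype]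
    have h2 : Subgroup.closure {π ⟨x, hx⟩, π ⟨y, hy⟩} = ⊤ := by
      have h3 := congrArg (Subgroup.map π) h1
      rw [MonoidHom.map_closure, Set.image_pair, Subgroup.map_top_of_surjective π hπ] at h3
      exact h3
    have h3 := congrArg (Subgroup.map V'.subtype) h2
    rw [MonoidHom.map_closure, Set.image_pair, ← MonoidHom.range_eq_map,
      Subgroup.range_subtype] at h3
    exact h3.symm
  · exact Or.inr (Or.inr ⟨hf.pos, hexp, fr_quo hab hp' hix hfq hf.fr, (ix_le hfq).trans hf.ix⟩)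

end Pool.Agent.PP.T8.H25
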