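import Pool.Agent.AT8.Stmts1
import Pool.Agent.Helper46_PP.Alg

/-!
# AT8, row IDP: some power of an element of the group ring over `F` is an idempotent
-/

open scoped BigOperators

set_option linter.unusedSectionVars false

noncomputable section

namespace Pool.Agent.PP.T8.H25

open Pool.Agent.Helper51_AWC Pool.Agent.Helper79_WRA Pool.Agent.PP Pool.Agent.PP.KF
open Pool.Agent.PP.K9 Pool.Agent.PP.K9.H97 Pool.Agent.PP.H75 Pool.Agent.PP.T3 Pool.Agent.PP.T2

section

variable {F H : Type} [Field F] [Group H] [Finite H]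

theorem pw_zero (x : H → F) : pw x 0 = dl F (1 : H) := rfl

theorem pw_succ (x : H → F) (n : ℕ) : pw x (n + 1) = mulF x (pw x n) := rfl

theorem pw_add (x : H → F) (m n : ℕ) : mulF (pw x m) (pw x n) = pw x (m + n) := by
  induction m with
  | zero => rw [pw_zero, H46.one_mulF, zero_add]
  | succ m ih => rw [pw_succ, mulF_assoc, ih, ← pw_succ, Nat.add_right_comm]

/-- the values of all powers are in a finite set -/
theorem pw_fin {ℓ : ℕ} (hF : GoodF ℓ F) (x : H → F) :
    ∃ S : Subring F, Finite S ∧ ∀ n g, pw x n g ∈ S := by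
  classical
  have := Fintype.ofFinite H
  have := hF.char
  have : Fact ℓ.Prime := ⟨hF.prime⟩
  let _ : Algebra (ZMod ℓ) F := ZMod.algebra F ℓ
  have hint : ∀ y ∈ Set.range x, IsIntegral (ZMod ℓ) y := by
    intro y _
    by_cases h : y = 0
    · rw [h]
      exact isIntegral_zero
    · obtain ⟨n, hn, h1⟩ := hF.tors y h
      exact IsIntegral.of_pow hn (h1 ▸ isIntegral_one)
  have hfg := fg_adjoin_of_finite (Set.finite_range x) hint
  have hmf : Module.Finite (ZMod ℓ) (Algebra.adjoin (ZMod ℓ) (Set.range x)) :=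
    Module.Finite.iff_fg.2 hfg
  have hfin : Finite (Algebra.adjoin (ZMod ℓ) (Set.range x)) :=
    Module.finite_of_finite (ZMod ℓ)
  refine ⟨(Algebra.adjoin (ZMod ℓ) (Set.range x)).toSubring, hfin, ?_⟩
  intro n
  induction n with
  | zero =>
    intro g
    rw [pw_zero, dl]
    by_cases h : g = 1
    · rw [if_pos h]; exact one_mem _
    · rw [if_neg h]; exact zero_mem _
  | succ n ih =>
    intro g
    rw [pw_succ, mulF, finsum_eq_sum_of_fintype]
    exact sum_mem fun t _ => mul_mem (Algebra.subset_adjoin ⟨t, rfl⟩) (ih _)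

end

theorem idp : IdpStmt := by
  intro ℓ F _ hF H _ _ x
  obtain ⟨S, hS, hmem⟩ := pw_fin hF x
  obtain ⟨i, j, hij, h⟩ := Finite.exists_ne_map_eq_of_infinite
    (fun n : ℕ => fun g : H => (⟨pw x n g, hmem n g⟩ : S))
  have h1 : pw x i = pw x j := by
    funext g
    exact congrArg Subtype.val (congrFun h g)
  -- `a < b` with `pw x a = pw x b`
  obtain ⟨a, p, hp, hap⟩ : ∃ a p : ℕ, 0 < p ∧ pw x (a + p) = pw x a := by
    rcases lt_or_gt_of_ne hij with h2 | h2
    · exact ⟨i, j - i, Nat.sub_pos_of_lt h2, by rw [Nat.add_sub_cancel' h2.le, h1]⟩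
    · exact ⟨j, i - j, Nat.sub_pos_of_lt h2, by rw [Nat.add_sub_cancel' h2.le, h1]⟩
  have h2 : ∀ c, pw x (a + c + p) = pw x (a + c) := by
    intro c
    have h3 : a + c + p = c + (a + p) := by omega
    rw [h3, ← pw_add, hap, pw_add, add_comm c a]
  have h3 : ∀ k c, pw x (a + c + k * p) = pw x (a + c) := by
    intro k
    induction k with
    | zero => intro c; rw [zero_mul, add_zero]
    | succ k ih =>
      intro c
      have h4 : a + c + (k + 1) * p = a + (c + k * p) + p := by ring
      rw [h4, h2, ← add_assoc, ih]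
  refine ⟨(a + 1) * p, Nat.mul_pos a.succ_pos hp, ?_⟩
  have h4 : a ≤ (a + 1) * p := by nlinarith
  obtain ⟨c, hc⟩ := Nat.exists_eq_add_of_le h4
  rw [pw_add]
  conv_lhs => rw [show (a + 1) * p + (a + 1) * p = a + c + (a + 1) * p by rw [← hc]]
  rw [h3, ← hc]

end Pool.Agent.PP.T8.H25
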