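import Pool.Agent.Helper25_AT2.TEA
import Pool.Agent.AT8.Stmts4

/-!
# Squad AT8, row TE8: only the part over the conjugates of `(U, f)` contributes
-/

open scoped BigOperators

set_option linter.unusedSectionVars false

noncomputable section

namespace Pool.Agent.PP.T8.H25

open Pool.Agent.Helper51_AWC Pool.Agent.Helper79_WRA Pool.Agent.PP Pool.Agent.PP.KF
open Pool.Agent.PP.K9 Pool.Agent.PP.K9.H97 Pool.Agent.PP.H75 Pool.Agent.PP.T3 Pool.Agent.PP.T2
open Pool.Agent.PP.T2.H25

attribute [local instance] Ideal.Quotient.field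

theorem te8 (ort : OrtStmt) (ty8 : Ty8aStmt) : Te8Stmt := by
  intro ℓ _ M _ hM G _ _ e V γ hL a ha hexp f hf hIh Q hQ hQ1
  classical
  have hF : GoodF ℓ (FF M) := H50.fld ℓ Fact.out M hM
  obtain ⟨U, hU⟩ : ∃ U, U = Uw (ℓ ^ (a - 1)) V := ⟨_, rfl⟩
  have hh : Hf e U f := by rw [hU]; exact hf_of hf
  have ho : ∀ g h : G, Bt U Q g → Bt U Q h → conjS g U ≠ conjS h U →
      mulF (br Q (cj g f)) (br Q (cj h f)) = 0 := by
    rw [hU]
    exact ort ℓ M hM G e V γ hL (ℓ ^ (a - 1)) f hf Q hQ
  rw [← hU]
  have heI : IsIdem e := hL.blk.1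
  obtain ⟨-, -, b3⟩ := H20.brm ℓ (FF M) hF G Q (Subgroup.normalizer (Q : Set G)) hQ
    (cent_le_norm Q) le_rfl
  obtain ⟨e', he'⟩ : ∃ e' : Subgroup.normalizer (Q : Set G) → FF M,
    e' = fun t : Subgroup.normalizer (Q : Set G) => br Q e t := ⟨_, rfl⟩
  obtain ⟨B, hB⟩ : ∃ B : Subgroup.normalizer (Q : Set G) → FF M,
    B = fun t : Subgroup.normalizer (Q : Set G) => brU U Q f t := ⟨_, rfl⟩
  obtain ⟨p, hp⟩ : ∃ p, p = QuotientGroup.mk' (Q.subgroupOf (Subgroup.normalizer (Q : Set G))) :=
    ⟨_, rfl⟩
  have hps : Function.Surjective p := by rw [hp]; exact QuotientGroup.mk'_surjective _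
  have hpk : p.ker = Q.subgroupOf (Subgroup.normalizer (Q : Set G)) := by
    rw [hp]; exact QuotientGroup.ker_mk' _
  have hbs : ∀ x, x ∉ Subgroup.normalizer (Q : Set G) → br Q e x = 0 := fun x hx =>
    br_out _ fun hx' => hx (cent_le_norm Q hx')
  have heid : IsIdem e' := by rw [he']; exact b3 e heI
  have hBid : IsIdem B := by rw [hB]; exact brU_idem hF hQ hh ho (cent_le_norm Q) le_rfl
  have heB : mulF e' B = B := by
    rw [he', hB, ← mulF_res _ (brU U Q f) hbs, brU_und hF hQ heI.1 hh]
  unfold YQ
  rw [← hp, ← he', ← hB]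
  by_cases hgd : Gd e Q
  · obtain ⟨hE, hBE⟩ := H46.isIdem_sub heid hBid heB
    have hpe : push p e' = push p (e' - B) + push p B := by rw [← push_add, sub_add_cancel]
    have h1 : IsIdem (push p (e' - B)) := push_isIdem hps hE
    have h2 : IsIdem (push p B) := push_isIdem hps hBid
    have h12 : mulF (push p (e' - B)) (push p B) = 0 := by
      rw [← push_mulF, H46.mulF_comm hE.1, hBE, push_zero]
    rw [hpe, H9.YY_add hF H94.nch H20.nls H20.brm H20.eig H20.ibf ⊤ h1 h2 h12]
    have hz : YY ℓ ⊤ (push p (e' - B)) = 0 := by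
      refine H9.addStmt ℓ (FF M) hF _ ⊤ inferInstance _ h1 fun f₁ hf₁ hEf => ?_
      have hef : mulF (push p e') f₁ = f₁ := by
        have h3 : mulF (push p e') (push p (e' - B)) = push p (e' - B) := by
          rw [← push_mulF]
          congr 1
          have h4 : mulF e' e' = mulF e' (e' - B) + mulF e' B := by
            rw [← H46.mulF_add, sub_add_cancel]
          rw [heid.2, heB] at h4
          exact (sub_eq_of_eq_add h4).symm
        rw [← hEf, ← mulF_assoc, h3]
      have hk : ∀ g : G, conjS g U ≤ Q →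
          mulF (push p (fun t : Subgroup.normalizer (Q : Set G) => br Q (cj g f) t)) f₁ = 0 := by
        intro g hg
        have hab := good_ab hM hL hQ hgd
        have hb : Bt U Q g := by
          refine ⟨hg, fun q hq => ?_⟩
          rw [Subgroup.mem_centralizer_iff]
          intro y hy
          exact hab y (hg hy) q hq
        have hEs : ∀ x, x ∉ Subgroup.normalizer (Q : Set G) → br Q (cj g f) x = 0 := fun x hx =>
          br_out _ fun hx' => hx (cent_le_norm Q hx')
        have k1 : mulF e' (fun t : Subgroup.normalizer (Q : Set G) => br Q (cj g f) t) =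
            fun t : Subgroup.normalizer (Q : Set G) => br Q (cj g f) t := by
          rw [he', ← mulF_res _ (br Q (cj g f)) hbs, e_und hF hQ heI.1 hh hb]
        have k2 : mulF (fun t : Subgroup.normalizer (Q : Set G) => br Q (cj g f) t) B =
            fun t : Subgroup.normalizer (Q : Set G) => br Q (cj g f) t := by
          rw [hB, ← mulF_res _ (brU U Q f) hEs]
          have k3 := en_brU hF hQ hh ho g
          rw [en_of hb] at k3
          rw [k3]
        have k4 : mulF (fun t : Subgroup.normalizer (Q : Set G) => br Q (cj g f) t) (e' - B) =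
            0 := by
          have k5 : mulF (fun t : Subgroup.normalizer (Q : Set G) => br Q (cj g f) t) e' =
              mulF (fun t : Subgroup.normalizer (Q : Set G) => br Q (cj g f) t) (e' - B) +
              mulF (fun t : Subgroup.normalizer (Q : Set G) => br Q (cj g f) t) B := by
            rw [← H46.mulF_add, sub_add_cancel]
          rw [← H46.mulF_comm heid.1, k1, k2] at k5
          exact left_eq_add.1 (by rw [add_comm] at k5; exact k5)
        rw [← hEf, ← mulF_assoc, ← push_mulF, k4, push_zero, zero_mulF]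
      have hpe' : mulF (push p (fun t : Subgroup.normalizer (Q : Set G) => br Q e t)) f₁ = f₁ := by
        rw [← he']
        exact hef
      obtain ⟨V', γ', hL', hex', hfq⟩ := ty8 ℓ M hM G e V γ hL a ha hexp f hf Q hQ _ p hps
        hpk f₁ hf₁ hpe' (by rw [← hU]; exact hk)
      exact hIh _ (card_quot hQ1) f₁ V' γ' hL' hex' hfq
    rw [hz, zero_add]
  · have h0 : e' = 0 := by
      rw [he']
      funext t
      by_cases ht : (t : G) ∈ Subgroup.centralizer (Q : Set G)
      · rw [br_in _ ht]
        by_contra h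
        exact hgd ⟨t, ht, h⟩
      · rw [br_out _ ht]
        rfl
    have h1 : B = 0 := by rw [← heB, h0, zero_mulF]
    rw [h0, h1]

end Pool.Agent.PP.T8.H25
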